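import Pool.Agent.H14.AVS.S3

/-!
# AVS, module RIP: the rings `O / P^N`
-/

set_option autoImplicit false

namespace Pool.AVS.RIP

open Polynomial Matrix Pool.AVR Pool.AVS

section Loc

variable {L : Type} [Field L] {O : ValuationSubring L} {π : L}

theorem mem_max (h : Loc L O π) (x : O) :
    x ∈ IsLocalRing.maximalIdeal O ↔ (x : L) / π ∈ O := by
  rw [IsLocalRing.mem_maximalIdeal, mem_nonunits_iff]
  by_cases hx : x = 0
  · subst hx
    simp
  · have hx' : (x : L) ≠ 0 := fun hh => hx (Subtype.ext hh)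
    rw [← h.unif x x.2 hx', not_iff_not]
    constructor
    · rintro ⟨u, hu⟩
      have h1 : (x : L) * ((u⁻¹ : Oˣ) : O) = 1 := by
        have h2 : (u : O) * ((u⁻¹ : Oˣ) : O) = 1 := by simp
        rw [hu] at h2
        have h3 := congrArg (Subtype.val) h2
        simpa using h3
      have h2 : (x : L)⁻¹ = (((u⁻¹ : Oˣ) : O) : L) := inv_eq_of_mul_eq_one_right h1
      rw [h2]
      exact SetLike.coe_mem _
    · intro hi
      exact IsUnit.of_mul_eq_one ⟨(x : L)⁻¹, hi⟩ (Subtype.ext (by
        show (x : L) * (x : L)⁻¹ = 1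
        exact mul_inv_cancel₀ hx'))

theorem max_eq (h : Loc L O π) :
    IsLocalRing.maximalIdeal O = Ideal.span {(⟨π, h.pi_mem⟩ : O)} := by
  ext x
  rw [mem_max h, Ideal.mem_span_singleton]
  constructor
  · intro hx
    refine ⟨⟨(x : L) / π, hx⟩, Subtype.ext ?_⟩
    show (x : L) = π * ((x : L) / π)
    field_simp [h.pi_ne]
  · rintro ⟨y, hy⟩
    have : (x : L) = π * (y : L) := congrArg Subtype.val hy
    rw [this, mul_div_cancel_left₀ _ h.pi_ne]
    exact y.2

theorem mem_max_pow (h : Loc L O π) (N : ℕ) (x : O) :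
    x ∈ (IsLocalRing.maximalIdeal O) ^ N ↔ (x : L) / π ^ N ∈ O := by
  rw [max_eq h, Ideal.span_singleton_pow, Ideal.mem_span_singleton]
  have hp : π ^ N ≠ 0 := pow_ne_zero _ h.pi_ne
  constructor
  · rintro ⟨y, hy⟩
    have : (x : L) = π ^ N * (y : L) := by
      have := congrArg Subtype.val hy
      simpa using this
    rw [this, mul_div_cancel_left₀ _ hp]
    exact y.2
  · intro hx
    refine ⟨⟨(x : L) / π ^ N, hx⟩, Subtype.ext ?_⟩
    show (x : L) = (((⟨π, h.pi_mem⟩ : O) ^ N : O) : L) * ((x : L) / π ^ N)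
    rw [SubmonoidClass.coe_pow]
    field_simp

end Loc

section Main

variable {F : Type} [Field F] {P : F[X]} {L : Type} [Field L] {O : ValuationSubring L}
  {ι : RatFunc F →+* L}

theorem card_adj [Finite F] {P : F[X]} (hP : P.Monic) :
    Nat.card (AdjoinRoot P) = Nat.card F ^ P.natDegree := by
  have hf : Module.Finite F (AdjoinRoot P) := hP.finite_adjoinRoot
  rw [Module.natCard_eq_pow_finrank (K := F) (V := AdjoinRoot P)]
  rw [(AdjoinRoot.powerBasis' hP).finrank]
  rfl

theorem poly_mem (hP : Irreducible P)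
    (h : IsComp F (IP P) (algebraMap F[X] (RatFunc F) P) L O ι) (p : F[X]) :
    ι (algebraMap F[X] (RatFunc F) p) ∈ O := by
  rw [h.mem]
  show ¬ P ∣ (algebraMap F[X] (RatFunc F) p).denom
  rw [RatFunc.denom_algebraMap]
  intro hd
  exact hP.not_isUnit (isUnit_of_dvd_one hd)

theorem ex_poly (hP : Irreducible P)
    (h : IsComp F (IP P) (algebraMap F[X] (RatFunc F) P) L O ι) (N : ℕ) (z : O) :
    ∃ p : F[X], ((z : L) - ι (algebraMap F[X] (RatFunc F) p)) /
      ι (algebraMap F[X] (RatFunc F) P) ^ N ∈ O := by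
  obtain ⟨x, hx⟩ := h.dense z N
  set π := ι (algebraMap F[X] (RatFunc F) P) with hπ
  have hp : π ^ N ≠ 0 := pow_ne_zero _ h.loc.pi_ne
  have hxO : ι x ∈ O := by
    have h1 : ι x = z - ((z : L) - ι x) / π ^ N * π ^ N := by
      field_simp
      ring
    rw [h1]
    exact sub_mem z.2 (mul_mem hx (pow_mem h.loc.pi_mem N))
  have hd : ¬ P ∣ x.denom := (h.mem x).1 hxO
  have hc : IsCoprime x.denom (P ^ N) := ((hP.coprime_iff_not_dvd.2 hd).symm).pow_right
  obtain ⟨u, v, huv⟩ := hc
  refine ⟨x.num * u, ?_⟩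
  have hdn : algebraMap F[X] (RatFunc F) x.denom ≠ 0 := by
    rw [Ne, map_eq_zero_iff _ (RatFunc.algebraMap_injective F)]
    exact RatFunc.denom_ne_zero x
  have hx1 : algebraMap F[X] (RatFunc F) x.num = x * algebraMap F[X] (RatFunc F) x.denom := by
    have h2 := RatFunc.num_div_denom x
    rwa [div_eq_iff hdn] at h2
  have h2 : x - algebraMap F[X] (RatFunc F) (x.num * u) =
      x * algebraMap F[X] (RatFunc F) v * algebraMap F[X] (RatFunc F) P ^ N := by
    rw [map_mul, hx1]
    have h3 : algebraMap F[X] (RatFunc F) u * algebraMap F[X] (RatFunc F) x.denom +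
      algebraMap F[X] (RatFunc F) v * algebraMap F[X] (RatFunc F) P ^ N = 1 := by
      rw [← map_pow, ← map_mul, ← map_mul, ← map_add, huv, map_one]
    linear_combination x * (-h3)
  have h4 : ((z : L) - ι (algebraMap F[X] (RatFunc F) (x.num * u))) / π ^ N =
      ((z : L) - ι x) / π ^ N + ι x * ι (algebraMap F[X] (RatFunc F) v) := by
    have h5 : ι x - ι (algebraMap F[X] (RatFunc F) (x.num * u)) =
        ι x * ι (algebraMap F[X] (RatFunc F) v) * π ^ N := by
      rw [← map_sub, h2, map_mul, map_mul, map_pow, ← hπ]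
    field_simp
    linear_combination h5
  rw [h4]
  exact add_mem hx (mul_mem hxO (poly_mem hP h v))

theorem dvd_iff (hP : Irreducible P)
    (h : IsComp F (IP P) (algebraMap F[X] (RatFunc F) P) L O ι) (N : ℕ) (p : F[X]) :
    ι (algebraMap F[X] (RatFunc F) p) / ι (algebraMap F[X] (RatFunc F) P) ^ N ∈ O ↔
      P ^ N ∣ p := by
  have hPn : algebraMap F[X] (RatFunc F) P ≠ 0 := by
    rw [Ne, map_eq_zero_iff _ (RatFunc.algebraMap_injective F)]
    exact hP.ne_zero
  constructor
  · intro hm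
    rw [← map_pow, ← map_div₀, h.mem] at hm
    set x : RatFunc F := algebraMap F[X] (RatFunc F) p / algebraMap F[X] (RatFunc F) P ^ N with hx
    have hd : ¬ P ∣ x.denom := hm
    have hc : IsCoprime (P ^ N) x.denom := (hP.coprime_iff_not_dvd.2 hd).pow_left
    have hdn : algebraMap F[X] (RatFunc F) x.denom ≠ 0 := by
      rw [Ne, map_eq_zero_iff _ (RatFunc.algebraMap_injective F)]
      exact RatFunc.denom_ne_zero x
    have h1 : p * x.denom = P ^ N * x.num := by
      apply RatFunc.algebraMap_injective F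
      rw [map_mul, map_mul, map_pow]
      have h2 := RatFunc.num_div_denom x
      rw [div_eq_iff hdn] at h2
      rw [h2, hx]
      field_simp
    exact hc.dvd_of_dvd_mul_right ⟨x.num, h1⟩
  · rintro ⟨q, rfl⟩
    rw [map_mul, map_mul, map_pow, map_pow, mul_div_cancel_left₀ _
      (pow_ne_zero _ h.loc.pi_ne)]
    exact poly_mem hP h q

/-- The homomorphism. -/
noncomputable def phi (hP : Irreducible P)
    (h : IsComp F (IP P) (algebraMap F[X] (RatFunc F) P) L O ι) : F[X] →+* O where
  toFun p := ⟨ι (algebraMap F[X] (RatFunc F) p), poly_mem hP h p⟩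
  map_one' := Subtype.ext (by simp)
  map_zero' := Subtype.ext (by simp)
  map_mul' p q := Subtype.ext (by simp)
  map_add' p q := Subtype.ext (by simp)

/-- The homomorphism to the quotient. -/
noncomputable def psi (hP : Irreducible P)
    (h : IsComp F (IP P) (algebraMap F[X] (RatFunc F) P) L O ι) (N : ℕ) : F[X] →+* ON O N :=
  (Ideal.Quotient.mk _).comp (phi hP h)

theorem psi_surj (hP : Irreducible P)
    (h : IsComp F (IP P) (algebraMap F[X] (RatFunc F) P) L O ι) (N : ℕ) :
    Function.Surjective (psi hP h N) := by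
  intro y
  obtain ⟨z, rfl⟩ := Ideal.Quotient.mk_surjective y
  obtain ⟨p, hp⟩ := ex_poly hP h N z
  refine ⟨p, ?_⟩
  show Ideal.Quotient.mk _ (phi hP h p) = Ideal.Quotient.mk _ z
  rw [eq_comm, Ideal.Quotient.eq, mem_max_pow h.loc]
  exact hp

theorem psi_ker (hP : Irreducible P)
    (h : IsComp F (IP P) (algebraMap F[X] (RatFunc F) P) L O ι) (N : ℕ) :
    RingHom.ker (psi hP h N) = Ideal.span {P ^ N} := by
  ext p
  rw [RingHom.mem_ker, Ideal.mem_span_singleton, ← dvd_iff hP h N p]
  show Ideal.Quotient.mk _ (phi hP h p) = 0 ↔ _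
  rw [Ideal.Quotient.eq_zero_iff_mem, mem_max_pow h.loc]
  rfl

/-- The isomorphism. -/
noncomputable def ee (hP : Irreducible P)
    (h : IsComp F (IP P) (algebraMap F[X] (RatFunc F) P) L O ι) (N : ℕ) :
    AdjoinRoot (P ^ N) ≃+* ON O N :=
  (Ideal.quotEquivOfEq (psi_ker hP h N).symm).trans
    (RingHom.quotientKerEquivOfSurjective (psi_surj hP h N))

theorem ee_mk (hP : Irreducible P)
    (h : IsComp F (IP P) (algebraMap F[X] (RatFunc F) P) L O ι) (N : ℕ) (p : F[X]) :
    ee hP h N (AdjoinRoot.mk (P ^ N) p) = psi hP h N p := rfl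

end Main

end Pool.AVS.RIP

namespace Pool.AVS

open Polynomial Matrix Pool.AVR Pool.AVS.RIP

theorem rip_thm : RIPStmt := by
  intro F _ _ P hM hP L _ O ι h
  have hc := card_adj (F := F) hM
  refine ⟨?_, hc, ?_⟩
  · have e1 : IsLocalRing.ResidueField O ≃ ON O 1 :=
      (Ideal.quotEquivOfEq (pow_one (IsLocalRing.maximalIdeal O)).symm).toEquiv
    have e2 : AdjoinRoot (P ^ 1) ≃ ON O 1 := (ee hP h 1).toEquiv
    show Nat.card (IsLocalRing.ResidueField O) = _
    rw [Nat.card_congr (e1.trans e2.symm), pow_one, hc]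
  · intro N
    refine ⟨(ee hP h N).symm, ?_⟩
    intro p hp
    rw [RingEquiv.symm_apply_eq, ee_mk]
    rfl

end Pool.AVS
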