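import Pool.Agent.H14.AVS.S3

/-!
# AVS, module GLB: a global form with prescribed local lattices
-/

set_option autoImplicit false

namespace Pool.AVS.GLB

open Polynomial Matrix Pool.AVR Pool.AVS

section Gen

variable {L : Type} [Field L] (R : Subring L)

theorem mi_mul {g h : Matrix (Fin 3) (Fin 3) L} (hg : MI (R : Set L) g) (hh : MI (R : Set L) h) :
    MI (R : Set L) (g * h) := by
  intro i j
  rw [Matrix.mul_apply]
  exact R.sum_mem fun k _ => R.mul_mem (hg i k) (hh k j)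

theorem gi_mul {g h : Matrix (Fin 3) (Fin 3) L} (hg : GI (R : Set L) g) (hh : GI (R : Set L) h) :
    GI (R : Set L) (g * h) := by
  refine ⟨mi_mul R hg.1 hh.1, ?_, ?_, ?_⟩
  · rw [Matrix.det_mul]
    exact mul_ne_zero hg.2.1 hh.2.1
  · rw [Matrix.det_mul]
    exact R.mul_mem hg.2.2.1 hh.2.2.1
  · rw [Matrix.det_mul, mul_inv]
    exact R.mul_mem hg.2.2.2 hh.2.2.2

theorem gi_tr {g : Matrix (Fin 3) (Fin 3) L} {I : Set L} (hg : GI I g) : GI I gᵀ := by
  refine ⟨fun i j => hg.1 j i, ?_⟩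
  rw [Matrix.det_transpose]
  exact hg.2

end Gen

variable {F : Type} [Field F]

/-- The subring of functions regular at `P`. -/
def IR (hPOL : POLStmt) (P : F[X]) (hP : Irreducible P) : Subring (RatFunc F) where
  carrier := IP P
  zero_mem' := by
    have := ((hPOL F).2.2.1 P 0 hP).1
    rwa [map_zero] at this
  one_mem' := by
    have := ((hPOL F).2.2.1 P 1 hP).1
    rwa [map_one] at this
  mul_mem' := fun {x y} hx hy => ((hPOL F).2.1 P hP x y hx hy).2.1
  add_mem' := fun {x y} hx hy => ((hPOL F).2.1 P hP x y hx hy).1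
  neg_mem' := fun {x} hx => ((hPOL F).2.1 P hP x x hx hx).2.2

theorem IR_coe (hPOL : POLStmt) (P : F[X]) (hP : Irreducible P) :
    ((IR hPOL P hP : Subring (RatFunc F)) : Set (RatFunc F)) = IP P := rfl

theorem gi_poly (hPOL : POLStmt) (P : F[X]) (hP : Irreducible P)
    (γ : Matrix (Fin 3) (Fin 3) F[X]) (hγ : IsUnit γ.det) :
    GI (IP P) (γ.map (algebraMap F[X] (RatFunc F))) := by
  have hdet : (γ.map (algebraMap F[X] (RatFunc F))).det = algebraMap F[X] (RatFunc F) γ.det := by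
    rw [RingHom.map_det, RingHom.mapMatrix_apply]
  obtain ⟨u, hu⟩ := hγ
  have huv : algebraMap F[X] (RatFunc F) γ.det * algebraMap F[X] (RatFunc F) (↑u⁻¹ : F[X]) = 1 := by
    rw [← map_mul, ← hu, Units.mul_inv, map_one]
  have hne : algebraMap F[X] (RatFunc F) γ.det ≠ 0 := by
    intro h0
    rw [h0, zero_mul] at huv
    exact zero_ne_one huv
  refine ⟨fun i j => ((hPOL F).2.2.1 P (γ i j) hP).1, ?_, ?_, ?_⟩
  · rw [hdet]
    exact hne
  · rw [hdet]
    exact ((hPOL F).2.2.1 P _ hP).1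
  · rw [hdet, inv_eq_of_mul_eq_one_right huv]
    exact ((hPOL F).2.2.1 P _ hP).1

/-- A function regular and nonvanishing everywhere is a constant. -/
theorem const_of_unit (hPOL : POLStmt) (x : RatFunc F)
    (h : ∀ P : F[X], P.Monic → Irreducible P → UI (IP P) x) :
    ∃ c : F, c ≠ 0 ∧ x = algebraMap F[X] (RatFunc F) (C c) := by
  obtain ⟨p, hp⟩ := (hPOL F).1 x fun P hM hI => (h P hM hI).2.1
  obtain ⟨q, hq⟩ := (hPOL F).1 x⁻¹ fun P hM hI => (h P hM hI).2.2
  have hx : x ≠ 0 := (h X monic_X irreducible_X).1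
  have hpq : p * q = 1 := by
    apply RatFunc.algebraMap_injective F
    rw [map_mul, ← hp, ← hq, map_one, mul_inv_cancel₀ hx]
  have hu : IsUnit p := IsUnit.of_mul_eq_one q hpq
  rw [Polynomial.isUnit_iff] at hu
  obtain ⟨c, hc, rfl⟩ := hu
  exact ⟨c, hc.ne_zero, hp⟩

/-- A square root of a constant is constant. -/
theorem const_of_sq (x : RatFunc F) (c : F) (h : x ^ 2 = algebraMap F[X] (RatFunc F) (C c)) :
    ∃ e : F, x = algebraMap F[X] (RatFunc F) (C e) := by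
  have hi : IsIntegral F[X] x := by
    refine ⟨X ^ 2 - C (C c), monic_X_pow_sub_C _ two_ne_zero, ?_⟩
    rw [eval₂_sub, eval₂_pow, eval₂_X, eval₂_C, h, sub_self]
  obtain ⟨p, hp⟩ := IsIntegrallyClosed.isIntegral_iff.1 hi
  have h2 : p ^ 2 = C c := by
    apply RatFunc.algebraMap_injective F
    rw [map_pow, hp, h]
  have hd : p.natDegree = 0 := by
    have := congrArg natDegree h2
    rw [natDegree_pow, natDegree_C] at this
    omega
  rw [natDegree_eq_zero] at hd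
  obtain ⟨e, rfl⟩ := hd
  exact ⟨e, hp.symm⟩

end Pool.AVS.GLB

namespace Pool.AVS

open Polynomial Matrix Pool.AVR Pool.AVS.GLB

theorem glb_thm (hGLU : GLUStmt) (hNR2 : NR2Stmt) (hBIR : BIRStmt) (hPOL : POLStmt) :
    GLBStmt := by
  intro F _ _ h2 G ε S gP gi hGs hε hGdet hS hgP hGn hgi hGi
  set am := algebraMap F[X] (RatFunc F) with ham
  obtain ⟨g₁, hg₁, hg₁S, hg₁n⟩ := hGLU F S hS gP fun P hP => (hgP P hP).1
  have hIR : ∀ (P : F[X]) (hP : Irreducible P) (x y : Matrix (Fin 3) (Fin 3) (RatFunc F)),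
      GI (IP P) x → GI (IP P) y → GI (IP P) (x * y) := by
    intro P hP x y hx hy
    exact gi_mul (IR hPOL P hP) hx hy
  -- the form on the first lattice
  have hG₁ : ∀ P : F[X], P.Monic → Irreducible P → GI (IP P) (g₁ᵀ * G * g₁) := by
    intro P hM hI
    by_cases hP : P ∈ S
    · obtain ⟨κ, hκ, hgκ⟩ := hg₁S P hP
      have : g₁ᵀ * G * g₁ = κᵀ * ((gP P)ᵀ * G * gP P) * κ := by
        rw [hgκ, Matrix.transpose_mul]
        simp only [Matrix.mul_assoc]
      rw [this]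
      exact hIR P hI _ _ (hIR P hI _ _ (gi_tr hκ) (hgP P hP).2) hκ
    · exact hIR P hI _ _ (hIR P hI _ _ (gi_tr (hg₁n P hM hI hP)) (hGn P hM hI hP))
        (hg₁n P hM hI hP)
  have hpol : ∀ i j, ∃ p : F[X], (g₁ᵀ * G * g₁) i j = am p := fun i j =>
    (hPOL F).1 _ fun P hM hI => (hG₁ P hM hI).1 i j
  choose G₁ hG₁p using hpol
  have hG₁m : (Matrix.of G₁).map am = g₁ᵀ * G * g₁ := by
    ext i j
    rw [Matrix.map_apply, Matrix.of_apply, hG₁p]
  obtain ⟨c, hc, hcdet⟩ := const_of_unit hPOL (g₁ᵀ * G * g₁).det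
    fun P hM hI => (hG₁ P hM hI).2
  have hdet1 : (g₁ᵀ * G * g₁).det = -(ε * g₁.det) ^ 2 := by
    rw [Matrix.det_mul, Matrix.det_mul, Matrix.det_transpose, hGdet]
    ring
  obtain ⟨e, he⟩ := const_of_sq (ε * g₁.det) (-c) (by
    rw [C_neg, map_neg, ← ham, ← hcdet, hdet1, neg_neg])
  have hene : e ≠ 0 := by
    rintro rfl
    rw [C_0, map_zero] at he
    exact mul_ne_zero hε hg₁ he
  -- splitting
  obtain ⟨γ, d, κ, hγ, hκ1, hκ2, hκ3, hbir⟩ := hBIR F (gi⁻¹ * g₁) (by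
    rw [Matrix.det_mul, Matrix.det_nonsing_inv, Ring.inverse_eq_inv']
    exact mul_ne_zero (inv_ne_zero hgi) hg₁)
  rw [← ham] at hbir
  set D := Matrix.diagonal (fun i => (RatFunc.X : RatFunc F) ^ d i) with hD
  have hκdet : κ.det ∈ (OInf F : Set (RatFunc F)) := by
    rw [Matrix.det_apply]
    refine (OInf F).sum_mem fun σ _ => ?_
    rw [Units.smul_def, zsmul_eq_mul]
    exact (OInf F).mul_mem (intCast_mem (OInf F) _) ((OInf F).prod_mem fun i _ => hκ1 _ _)
  have hκ : GI (Iinf F) κ := ⟨fun i j => hκ1 i j, hκ2, hκdet, hκ3⟩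
  have hgiu : gi * gi⁻¹ = 1 := Matrix.mul_nonsing_inv _ (isUnit_iff_ne_zero.2 hgi)
  have hg1γ : g₁ * γ.map am = gi * κ * D := by
    have := congrArg (fun M => gi * M) hbir
    simp only [← Matrix.mul_assoc] at this
    rw [hgiu, Matrix.one_mul] at this
    exact this
  set G₂ : Matrix (Fin 3) (Fin 3) F[X] := γᵀ * Matrix.of G₁ * γ with hG₂
  set G₀ : Matrix (Fin 3) (Fin 3) (RatFunc F) := κᵀ * (giᵀ * G * gi) * κ with hG₀
  have hG₀i : GI (Iinf F) G₀ := gi_mul (OInf F) (gi_mul (OInf F) (gi_tr hκ) hGi) hκ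
  have hG₂m : G₂.map am = (g₁ * γ.map am)ᵀ * G * (g₁ * γ.map am) := by
    rw [hG₂, Matrix.map_mul, Matrix.map_mul, hG₁m, Matrix.transpose_mul, Matrix.transpose_map]
    simp only [Matrix.mul_assoc]
  have hDt : Dᵀ = D := by rw [hD, Matrix.diagonal_transpose]
  have hG₂d : G₂.map am = D * G₀ * D := by
    rw [hG₂m, hg1γ, hG₀, Matrix.transpose_mul, Matrix.transpose_mul, hDt]
    simp only [Matrix.mul_assoc]
  have hinj : Function.Injective am := RatFunc.algebraMap_injective F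
  have hG₂s : G₂ᵀ = G₂ := by
    apply Matrix.map_injective hinj
    show G₂ᵀ.map am = G₂.map am
    rw [Matrix.transpose_map, hG₂m]
    simp only [Matrix.transpose_mul, Matrix.transpose_transpose, hGs, Matrix.mul_assoc]
  obtain ⟨u, hu, huγ⟩ := Polynomial.isUnit_iff.1 hγ
  have hG₁det : (Matrix.of G₁).det = -C (e ^ 2) := by
    apply hinj
    rw [RingHom.map_det, RingHom.mapMatrix_apply, hG₁m, hdet1, he, map_neg, C_pow, map_pow]
  have hG₂det : G₂.det = -C ((u * e) ^ 2) := by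
    rw [hG₂, Matrix.det_mul, Matrix.det_mul, Matrix.det_transpose, hG₁det, ← huγ]
    simp only [map_pow, map_mul]
    ring
  obtain ⟨m, γ', hγ'A, hγ'i⟩ := hNR2 F h2 G₂ G₀ d (u * e) (mul_ne_zero hu.ne_zero hene) hG₂s hG₂det
    hG₀i hG₂d
  rw [← ham, ← hD] at hγ'i
  have hγ'u : IsUnit γ'.det := by
    have h3 := congrArg Matrix.det hγ'A
    rw [Matrix.det_mul, Matrix.det_mul, Matrix.det_transpose] at h3
    have h4 : (AA F[X]).det = -1 := by
      simp [AA, Matrix.det_fin_three]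
    rw [h4] at h3
    exact IsUnit.of_mul_eq_one (-(G₂.det * γ'.det)) (by linear_combination -h3)
  refine ⟨m, g₁ * γ.map am * γ'.map am, ?_, ?_, ?_, ?_⟩
  · have h5 : (g₁ * γ.map am * γ'.map am)ᵀ * G * (g₁ * γ.map am * γ'.map am) =
        (γ'.map am)ᵀ * ((g₁ * γ.map am)ᵀ * G * (g₁ * γ.map am)) * γ'.map am := by
      simp only [Matrix.transpose_mul, Matrix.mul_assoc]
    rw [h5, ← hG₂m, ← Matrix.transpose_map, ← Matrix.map_mul, ← Matrix.map_mul, hγ'A]
    ext i j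
    fin_cases i <;> fin_cases j <;> simp [AA]
  · intro P hP
    obtain ⟨κ', hκ', hgκ⟩ := hg₁S P hP
    refine ⟨κ' * γ.map am * γ'.map am, ?_, ?_⟩
    · have hI := (hS P hP).2
      exact hIR P hI _ _ (hIR P hI _ _ hκ' (gi_poly hPOL P hI γ hγ)) (gi_poly hPOL P hI γ' hγ'u)
    · rw [hgκ]
      simp only [Matrix.mul_assoc]
  · intro P hM hI hP
    exact hIR P hI _ _ (hIR P hI _ _ (hg₁n P hM hI hP) (gi_poly hPOL P hI γ hγ))
      (gi_poly hPOL P hI γ' hγ'u)
  · refine ⟨κ * (D * γ'.map am * (Dm m)⁻¹), gi_mul (OInf F) hκ hγ'i, ?_⟩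
    have hDm : (Dm m : Matrix (Fin 3) (Fin 3) (RatFunc F))⁻¹ * Dm m = 1 := by
      apply Matrix.nonsing_inv_mul
      rw [isUnit_iff_ne_zero, Dm, Matrix.det_diagonal]
      exact Finset.prod_ne_zero_iff.2 fun i _ => zpow_ne_zero _ RatFunc.X_ne_zero
    rw [hg1γ]
    have h6 : gi * (κ * (D * γ'.map am * (Dm m)⁻¹)) * Dm m =
        gi * κ * D * γ'.map am * ((Dm m)⁻¹ * Dm m) := by
      simp only [Matrix.mul_assoc]
    rw [h6, hDm, Matrix.mul_one]

end Pool.AVS
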